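import Mathlib

/-!
A downward closed family `C` of subsets of a `T`-element set such that for all non negative
weights some member of `C` carries a quarter of the total weight. Then (duality) the constant
vector `1/4` is a convex combination of indicators of members of `C`, and (counting) `C` contains
at least `4 (T / 4 - k) ^ (k + 1) / (k + 1)!` sets of size `k + 1`.
-/

namespace Pool.Agent.W70.QP

open Finset

/-- indicator vector -/
noncomputable def ind {T : ℕ} (S : Finset (Fin T)) : Fin T → ℝ := fun g => if g ∈ S then 1 else 0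

theorem ind_inj {T : ℕ} : Function.Injective (ind : Finset (Fin T) → Fin T → ℝ) := by
  intro S S' h
  ext g
  have := congrFun h g
  unfold ind at this
  by_cases h1 : g ∈ S <;> by_cases h2 : g ∈ S' <;> simp_all

/-- duality -/
theorem exists_weights {T : ℕ} (C : Finset (Finset (Fin T)))
    (hC : ∀ S ∈ C, ∀ S', S' ⊆ S → S' ∈ C)
    (hw : ∀ m : Fin T → ℕ, ∃ S ∈ C, ∑ g, m g ≤ 4 * ∑ g ∈ S, m g) :
    ∃ w : Finset (Fin T) → ℝ, (∀ S ∈ C, 0 ≤ w S) ∧ ∑ S ∈ C, w S = 1 ∧
      ∀ g, ∑ S ∈ C, w S * ind S g = 1 / 4 := by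
  classical
  by_cases hmem : (fun _ : Fin T => (1 / 4 : ℝ)) ∈ convexHull ℝ ((C.image ind : Finset (Fin T → ℝ)) : Set (Fin T → ℝ))
  · rw [Finset.mem_convexHull] at hmem
    obtain ⟨w, hw0, hw1, hw2⟩ := hmem
    rw [Finset.centerMass_eq_of_sum_1 _ _ hw1] at hw2
    rw [Finset.sum_image (fun a _ b _ h => ind_inj h)] at hw1 hw2
    refine ⟨fun S => w (ind S), fun S hS => hw0 _ (mem_image_of_mem _ hS), hw1, fun g => ?_⟩
    have := congrFun hw2 g
    simpa [Finset.sum_apply, smul_eq_mul] using this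
  · exfalso
    obtain ⟨f, u, hf1, hf2⟩ := geometric_hahn_banach_closed_point
      (convex_convexHull ℝ ((C.image ind : Finset (Fin T → ℝ)) : Set (Fin T → ℝ)))
      ((C.image ind).finite_toSet.isClosed_convexHull (𝕜 := ℝ)) hmem
    set c : Fin T → ℝ := fun g => f (Pi.single g 1) with hc
    have hfv : ∀ v : Fin T → ℝ, f v = ∑ g, v g * c g := by
      intro v
      conv_lhs => rw [← Finset.univ_sum_single v]
      rw [map_sum]
      refine Finset.sum_congr rfl fun g _ => ?_
      have : (Pi.single g (v g) : Fin T → ℝ) = v g • (Pi.single g (1 : ℝ) : Fin T → ℝ) := by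
        ext j
        by_cases h : j = g
        · subst h; simp
        · simp [h]
      rw [this, map_smul, smul_eq_mul]
    have hS : ∀ S ∈ C, ∑ g ∈ S, c g < u := by
      intro S hS
      have h1 := hf1 (ind S) (subset_convexHull ℝ _ (by
        rw [mem_coe]; exact mem_image_of_mem _ hS))
      rw [hfv] at h1
      unfold ind at h1
      simpa [Finset.sum_ite_mem] using h1
    have hu : u < (1 / 4) * ∑ g, c g := by
      rw [hfv] at hf2
      rw [Finset.mul_sum]
      exact hf2
    set d : Fin T → ℝ := fun g => max (c g) 0 with hd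
    have hd0 : ∀ g, 0 ≤ d g := fun g => le_max_right _ _
    have hSd : ∀ S ∈ C, ∑ g ∈ S, d g < u := by
      intro S hSC
      have h1 := hS (S.filter (fun g => 0 < c g)) (hC S hSC _ (filter_subset _ _))
      refine lt_of_le_of_lt (le_of_eq ?_) h1
      rw [Finset.sum_filter]
      refine Finset.sum_congr rfl fun g _ => ?_
      simp only [hd]
      split_ifs with h
      · exact max_eq_left h.le
      · exact max_eq_right (not_lt.1 h)
    have hud : 4 * u < ∑ g, d g := by
      have h1 : ∑ g, c g ≤ ∑ g, d g := Finset.sum_le_sum fun g _ => le_max_left _ _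
      linarith
    obtain ⟨N, hN⟩ := exists_nat_gt ((T : ℝ) / (∑ g, d g - 4 * u))
    have hpos : 0 < ∑ g, d g - 4 * u := by linarith
    rw [div_lt_iff₀ hpos] at hN
    obtain ⟨S, hSC, hSm⟩ := hw (fun g => ⌊(N : ℝ) * d g⌋₊)
    have h1 : (N : ℝ) * ∑ g, d g - T ≤ ((∑ g, ⌊(N : ℝ) * d g⌋₊ : ℕ) : ℝ) := by
      push_cast
      have : ∀ g : Fin T, (N : ℝ) * d g - 1 ≤ (⌊(N : ℝ) * d g⌋₊ : ℝ) := fun g =>
        (Nat.sub_one_lt_floor _).le
      calc (N : ℝ) * ∑ g, d g - T = ∑ g : Fin T, ((N : ℝ) * d g - 1) := by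
            rw [Finset.sum_sub_distrib, Finset.mul_sum]; simp
        _ ≤ _ := Finset.sum_le_sum fun g _ => this g
    have h2 : ((∑ g ∈ S, ⌊(N : ℝ) * d g⌋₊ : ℕ) : ℝ) ≤ N * u := by
      push_cast
      calc ∑ g ∈ S, (⌊(N : ℝ) * d g⌋₊ : ℝ) ≤ ∑ g ∈ S, (N : ℝ) * d g :=
            Finset.sum_le_sum fun g _ => Nat.floor_le (mul_nonneg (Nat.cast_nonneg _) (hd0 g))
        _ = N * ∑ g ∈ S, d g := by rw [Finset.mul_sum]
        _ ≤ N * u := mul_le_mul_of_nonneg_left (hSd S hSC).le (Nat.cast_nonneg _)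
    have h3 : ((∑ g, ⌊(N : ℝ) * d g⌋₊ : ℕ) : ℝ) ≤ 4 * ((∑ g ∈ S, ⌊(N : ℝ) * d g⌋₊ : ℕ) : ℝ) := by
      exact_mod_cast hSm
    nlinarith

open Classical in
/-- counting -/
theorem count {T k : ℕ} (C : Finset (Finset (Fin T)))
    (hC : ∀ S ∈ C, ∀ S', S' ⊆ S → S' ∈ C)
    (hw : ∀ m : Fin T → ℕ, ∃ S ∈ C, ∑ g, m g ≤ 4 * ∑ g ∈ S, m g) (hk : (k : ℝ) ≤ T / 4) :
    4 * ((T : ℝ) / 4 - k) ^ (k + 1) ≤ ((univ.filter (fun u : Fin (k + 1) → Fin T =>
      Function.Injective u ∧ univ.image u ∈ C)).card : ℝ) := by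
  obtain ⟨w, hw0, hw1, hwg⟩ := exists_weights C hC hw
  -- number of injective maps into `S`
  set D : Finset (Fin T) → ℕ := fun S => (univ.filter (fun u : Fin (k + 1) → Fin T =>
    Function.Injective u ∧ ∀ i, u i ∈ S)).card with hD
  have hDS : ∀ S : Finset (Fin T), (S.card - k) ^ (k + 1) ≤ D S := by
    intro S
    have h1 : D S = (S.card).descFactorial (k + 1) := by
      have e1 : S.card.descFactorial (k + 1) = Fintype.card (Fin (k + 1) ↪ S) := by
        rw [Fintype.card_embedding_eq, Fintype.card_coe, Fintype.card_fin]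
      rw [e1]
      change (univ.filter (fun u : Fin (k + 1) → Fin T =>
        Function.Injective u ∧ ∀ i, u i ∈ S)).card = _
      rw [← Fintype.card_coe]
      symm
      refine Fintype.card_congr ⟨fun e => ⟨fun i => (e i : Fin T), ?_⟩,
        fun u => ⟨fun i => ⟨u.1 i, ?_⟩, ?_⟩, ?_, ?_⟩
      · rw [mem_filter]
        exact ⟨mem_univ _, fun i j h => e.injective (Subtype.ext h), fun i => (e i).2⟩
      · exact (mem_filter.1 u.2).2.2 i
      · intro i j h
        exact (mem_filter.1 u.2).2.1 (congrArg Subtype.val h)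
      · intro e; ext i; rfl
      · intro u; rfl
    rw [h1]
    have := Nat.pow_sub_le_descFactorial S.card (k + 1)
    simpa using this
  have hup : ∑ S ∈ C, w S * D S ≤ (1 / 4) * ((univ.filter (fun u : Fin (k + 1) → Fin T =>
      Function.Injective u ∧ univ.image u ∈ C)).card : ℝ) := by
    have e1 : ∀ S, (D S : ℝ) = ∑ u : Fin (k + 1) → Fin T,
        if Function.Injective u ∧ ∀ i, u i ∈ S then (1 : ℝ) else 0 := by
      intro S
      rw [hD]
      simp
    calc ∑ S ∈ C, w S * D S = ∑ u : Fin (k + 1) → Fin T, ∑ S ∈ C,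
          w S * (if Function.Injective u ∧ ∀ i, u i ∈ S then (1 : ℝ) else 0) := by
          rw [Finset.sum_comm]
          refine Finset.sum_congr rfl fun S _ => ?_
          rw [e1, Finset.mul_sum]
      _ ≤ ∑ u : Fin (k + 1) → Fin T, if Function.Injective u ∧ univ.image u ∈ C then
          (1 / 4 : ℝ) else 0 := by
          refine Finset.sum_le_sum fun u _ => ?_
          split_ifs with hu
          · calc ∑ S ∈ C, w S * (if Function.Injective u ∧ ∀ i, u i ∈ S then (1 : ℝ) else 0) ≤
                ∑ S ∈ C, w S * ind S (u 0) := by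
                  refine Finset.sum_le_sum fun S hS => ?_
                  refine mul_le_mul_of_nonneg_left ?_ (hw0 S hS)
                  unfold ind
                  split_ifs with h1 h2 h2
                  · exact le_rfl
                  · exact absurd (h1.2 0) h2
                  · norm_num
                  · exact le_rfl
              _ = 1 / 4 := hwg (u 0)
          · refine le_of_eq (Finset.sum_eq_zero fun S hS => ?_)
            rw [if_neg, mul_zero]
            rintro ⟨h1, h2⟩
            apply hu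
            refine ⟨h1, hC S hS _ ?_⟩
            intro g hg
            obtain ⟨i, _, rfl⟩ := mem_image.1 hg
            exact h2 i
      _ = _ := by
          rw [← Finset.sum_filter, Finset.sum_const, nsmul_eq_mul, mul_comm]
  have hlow : ((T : ℝ) / 4 - k) ^ (k + 1) ≤ ∑ S ∈ C, w S * D S := by
    have h1 : (T : ℝ) / 4 - k ≤ ∑ S ∈ C, w S * ((S.card - k : ℕ) : ℝ) := by
      have h2 : ∑ S ∈ C, w S * ((S.card : ℝ) - k) = (T : ℝ) / 4 - k := by
        simp only [mul_sub, Finset.sum_sub_distrib]
        rw [← Finset.sum_mul, hw1, one_mul]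
        congr 1
        have h3 : ∀ S : Finset (Fin T), (S.card : ℝ) = ∑ g, ind S g := by
          intro S
          unfold ind
          simp
        simp only [h3, Finset.mul_sum]
        rw [Finset.sum_comm]
        rw [Finset.sum_congr rfl fun g _ => hwg g]
        simp
        ring
      rw [← h2]
      refine Finset.sum_le_sum fun S hS => mul_le_mul_of_nonneg_left ?_ (hw0 S hS)
      have : S.card ≤ (S.card - k) + k := by omega
      have h5 : (S.card : ℝ) ≤ ((S.card - k : ℕ) : ℝ) + k := by exact_mod_cast this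
      linarith
    calc ((T : ℝ) / 4 - k) ^ (k + 1) ≤ (∑ S ∈ C, w S * ((S.card - k : ℕ) : ℝ)) ^ (k + 1) :=
          pow_le_pow_left₀ (by linarith) h1 _
      _ ≤ ∑ S ∈ C, w S * ((S.card - k : ℕ) : ℝ) ^ (k + 1) :=
          Real.pow_arith_mean_le_arith_mean_pow C w (fun S => ((S.card - k : ℕ) : ℝ)) hw0 hw1
            (fun S _ => Nat.cast_nonneg _) (k + 1)
      _ ≤ ∑ S ∈ C, w S * D S := by
          refine Finset.sum_le_sum fun S hS => mul_le_mul_of_nonneg_left ?_ (hw0 S hS)
          exact_mod_cast hDS S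
  linarith

end Pool.Agent.W70.QP
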