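import Mathlib
import Pool.Agent.W70.QP.Cplx
import Pool.Agent.H362R2.CM.Box

/-!
The combinatorial part: a family `G` of finite subsets of a large finite set `V`, closed under
subsets, such that from any large number of large classes (in a bounded range) a quarter of the
classes has a transversal in `G`. Then at least `(4 ^ (-k) - ε) |V| ^ (k + 1)` of the
`(k + 1)`-tuples are in `G`.
-/

namespace Pool.Agent.W70.QP

open Finset

/-- the complex of the index sets of the members of `G` inside the tuple `x` -/
noncomputable def Cx {α : Type} [DecidableEq α] (G : Finset α → Prop) {T : ℕ} (x : Fin T → α) :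
    Finset (Finset (Fin T)) := by
  classical
  exact univ.filter (fun S => G (S.image x))

theorem mem_Cx {α : Type} [DecidableEq α] {G : Finset α → Prop} {T : ℕ} {x : Fin T → α}
    {S : Finset (Fin T)} : S ∈ Cx G x ↔ G (S.image x) := by
  classical
  unfold Cx
  simp

/-- the complex fails the weighted quarter property -/
def Fails {T : ℕ} (C : Finset (Finset (Fin T))) (m : Fin T → ℕ) : Prop :=
  1 ≤ ∑ g, m g ∧ ∀ S ∈ C, 4 * ∑ g ∈ S, m g < ∑ g, m g

/-- the quarter property for boxes with `T'` classes, `T' ≤ M` -/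
def QProp {α R : Type} [DecidableEq α] (Kf : ℕ → ℕ) (T M : ℕ) (V : Finset α) (res : α → R)
    (G : Finset α → Prop) : Prop :=
  ∀ T' : ℕ, 1 ≤ T' → T' ≤ M → ∀ H : Fin T' → Fin (Kf T') → α, (∀ g i, H g i ∈ V) →
    Function.Injective (fun x : Fin T' × Fin (Kf T') => H x.1 x.2) →
    (∃ y : Fin T → α, (∀ j, y j ∈ V) ∧ ∀ g i, ∃ j, res (H g i) = res (y j)) →
    ∃ (S : Finset (Fin T')) (c : Fin T' → Fin (Kf T')), T' ≤ 4 * S.card ∧
      G (S.image (fun g => H g (c g)))

/-- a box all of whose transversals have the same failing complex contradicts the quarter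
property -/
theorem no_box {α R : Type} [DecidableEq α] {Kf : ℕ → ℕ} {T M L : ℕ} {V : Finset α} {res : α → R}
    {G : Finset α → Prop} (hG : ∀ F F' : Finset α, F' ⊆ F → G F → G F') (hQ : QProp Kf T M V res G)
    (C : Finset (Finset (Fin T))) (m : Fin T → ℕ) (hm : Fails C m) (hM : ∑ g, m g ≤ M)
    (hL : (∑ g, m g) * Kf (∑ g, m g) < L) (ρ : Fin T → R) (A : Fin T → Fin L → α)
    (hA : ∀ g, Function.Injective (A g))
    (hB : ∀ c : Fin T → Fin L, (∀ g, A g (c g) ∈ V) ∧ Function.Injective (fun g => A g (c g)) ∧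
      Cx G (fun g => A g (c g)) = C ∧ ∀ g, res (A g (c g)) = ρ g) : False := by
  classical
  set T' : ℕ := ∑ g, m g with hT'
  set K' : ℕ := Kf T' with hK'
  have hL0 : 0 < L := by omega
  set e : (g : Fin T) × Fin (m g) ≃ Fin T' := finSigmaFinEquiv with he
  have hidx : ∀ (g : Fin T) (j : Fin (m g)) (i : Fin K'), (j : ℕ) * K' + i < L := by
    intro g j i
    have h1 : (j : ℕ) + 1 ≤ T' := by
      have h2 : m g ≤ T' := by
        rw [hT']
        exact Finset.single_le_sum (f := m) (fun _ _ => Nat.zero_le _) (mem_univ g)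
      have := j.2
      omega
    have h3 : ((j : ℕ) + 1) * K' ≤ T' * K' := Nat.mul_le_mul_right _ h1
    have := i.2
    have h4 : ((j : ℕ) + 1) * K' = (j : ℕ) * K' + K' := by ring
    omega
  set ix : Fin T' → Fin K' → Fin L := fun x i =>
    ⟨((e.symm x).2 : ℕ) * K' + i, hidx (e.symm x).1 (e.symm x).2 i⟩ with hix
  set H : Fin T' → Fin K' → α := fun x i => A (e.symm x).1 (ix x i) with hH
  have hV : ∀ g l, A g l ∈ V := fun g l => (hB (fun _ => l)).1 g
  have hcross : ∀ g g' l l', g ≠ g' → A g l ≠ A g' l' := by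
    intro g g' l l' hgg h
    have h1 := (hB (Function.update (fun _ => l) g' l')).2.1
    apply hgg
    apply h1
    simp only [Function.update_self, Function.update_of_ne hgg]
    exact h
  have hres : ∀ g l, res (A g l) = ρ g := fun g l => (hB (fun _ => l)).2.2.2 g
  obtain ⟨S', c', hS', hGS⟩ := hQ T' hm.1 hM H (fun g i => hV _ _) (by
    rintro ⟨x, i⟩ ⟨x', i'⟩ h
    simp only [hH] at h
    have h1 : (e.symm x).1 = (e.symm x').1 := by
      by_contra hne
      exact hcross _ _ _ _ hne h
    have key : ∀ (s s' : (g : Fin T) × Fin (m g)), s.1 = s'.1 →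
        A s.1 ⟨(s.2 : ℕ) * K' + i, hidx s.1 s.2 i⟩ = A s'.1 ⟨(s'.2 : ℕ) * K' + i', hidx s'.1 s'.2 i'⟩ →
        s = s' ∧ i = i' := by
      rintro ⟨g, j⟩ ⟨g', j'⟩ hg hA'
      simp only at hg
      subst hg
      have h2 := hA g hA'
      simp only [Fin.mk.injEq] at h2
      have hKpos : 0 < K' := lt_of_le_of_lt (Nat.zero_le _) i.2
      have h3 : (j : ℕ) = j' := by
        have e1 : ((j : ℕ) * K' + i) / K' = ((j' : ℕ) * K' + i') / K' := by rw [h2]
        rw [Nat.mul_comm (j : ℕ), Nat.mul_comm (j' : ℕ), Nat.mul_add_div hKpos,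
          Nat.mul_add_div hKpos, Nat.div_eq_of_lt i.2, Nat.div_eq_of_lt i'.2] at e1
        omega
      have h4 : (i : ℕ) = i' := by
        rw [h3] at h2
        omega
      refine ⟨?_, Fin.ext h4⟩
      rw [Fin.ext h3]
    obtain ⟨h5, h6⟩ := key (e.symm x) (e.symm x') h1 h
    rw [e.symm.injective h5, h6]) ⟨fun g => A g ⟨0, hL0⟩, fun g => hV _ _, fun x i =>
      ⟨(e.symm x).1, by rw [hres, hres]⟩⟩
  -- the classes that are hit
  set S : Finset (Fin T) := S'.image (fun x => (e.symm x).1) with hS
  have hsel : ∀ g : Fin T, ∃ x : Fin T', g ∈ S → (x ∈ S' ∧ (e.symm x).1 = g) := by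
    intro g
    by_cases hg : g ∈ S
    · obtain ⟨x, hx, hxg⟩ := mem_image.1 hg
      exact ⟨x, fun _ => ⟨hx, hxg⟩⟩
    · exact ⟨⟨0, by have := hm.1; omega⟩, fun h => absurd h hg⟩
  choose X hX using hsel
  set c : Fin T → Fin L := fun g => ix (X g) (c' (X g)) with hc
  have himg : S.image (fun g => A g (c g)) ⊆ S'.image (fun x => H x (c' x)) := by
    intro a ha
    obtain ⟨g, hg, rfl⟩ := mem_image.1 ha
    obtain ⟨h1, h2⟩ := hX g hg
    rw [mem_image]
    refine ⟨X g, h1, ?_⟩
    simp only [hH, hc]
    rw [h2]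
  have hSC : S ∈ C := by
    rw [← (hB c).2.2.1, mem_Cx]
    exact hG _ _ himg hGS
  have h1 := hm.2 S hSC
  have h2 : S'.card ≤ ∑ g ∈ S, m g := by
    have h3 : S'.card = (S'.image e.symm).card := (card_image_of_injective _ e.symm.injective).symm
    rw [h3]
    have h4 : S'.image e.symm ⊆ S.sigma (fun g => (univ : Finset (Fin (m g)))) := by
      intro s hs
      obtain ⟨x, hx, rfl⟩ := mem_image.1 hs
      rw [mem_sigma]
      exact ⟨mem_image_of_mem _ hx, mem_univ _⟩
    calc (S'.image e.symm).card ≤ _ := card_le_card h4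
      _ = ∑ g ∈ S, m g := by rw [card_sigma]; simp
  omega

open Classical in
/-- number of extensions of a partial tuple -/
theorem card_fiber {α : Type} {T l : ℕ} (V : Finset α) (u : Fin l → Fin T)
    (hu : Function.Injective u) (y : Fin l → α) (hy : ∀ i, y i ∈ V) :
    ((Fintype.piFinset (fun _ : Fin T => V)).filter (fun x => ∀ i, x (u i) = y i)).card * V.card ^ l =
      V.card ^ T := by
  have h1 : ((Fintype.piFinset (fun _ : Fin T => V)).filter (fun x => ∀ i, x (u i) = y i)) =
      Fintype.piFinset (fun g : Fin T => if h : ∃ i, u i = g then {y h.choose} else V) := by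
    ext x
    rw [mem_filter, Fintype.mem_piFinset, Fintype.mem_piFinset]
    constructor
    · rintro ⟨h1, h2⟩ g
      split_ifs with h
      · rw [mem_singleton]
        conv_lhs => rw [← h.choose_spec]
        exact h2 _
      · exact h1 g
    · intro h1
      have h2 : ∀ i, x (u i) = y i := by
        intro i
        have h3 := h1 (u i)
        have h4 : ∃ j, u j = u i := ⟨i, rfl⟩
        rw [dif_pos h4, mem_singleton] at h3
        rw [h3, hu h4.choose_spec]
      refine ⟨fun g => ?_, h2⟩
      have h3 := h1 g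
      split_ifs at h3 with h
      · rw [mem_singleton] at h3
        rw [h3]
        exact hy _
      · exact h3
  rw [h1, Fintype.card_piFinset]
  have h2 : ∀ g : Fin T, (if h : ∃ i, u i = g then ({y h.choose} : Finset α) else V).card =
      if g ∈ univ.image u then 1 else V.card := by
    intro g
    by_cases h : ∃ i, u i = g
    · rw [dif_pos h, if_pos (by simpa using h), card_singleton]
    · rw [dif_neg h, if_neg (by simpa using h)]
  simp only [h2]
  rw [Finset.prod_ite, prod_const_one, one_mul, prod_const]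
  rw [show (univ.filter (fun g : Fin T => g ∉ univ.image u)) = (univ.image u)ᶜ by
    ext g; simp]
  rw [card_compl, card_image_of_injective _ hu, card_univ, Fintype.card_fin, Fintype.card_fin,
    ← pow_add]
  congr 1
  have : l ≤ T := by
    have := Fintype.card_le_of_injective u hu
    simpa using this
  omega

open Classical in
/-- averaging over the tuples -/
theorem card_pull {α : Type} {T l : ℕ} (V : Finset α) (u : Fin l → Fin T)
    (hu : Function.Injective u) (P : (Fin l → α) → Prop) :
    ((Fintype.piFinset (fun _ : Fin T => V)).filter (fun x => P (fun i => x (u i)))).card * V.card ^ l =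
      V.card ^ T * ((Fintype.piFinset (fun _ : Fin l => V)).filter P).card := by
  have h1 : ((Fintype.piFinset (fun _ : Fin T => V)).filter (fun x => P (fun i => x (u i)))).card =
      ∑ y ∈ (Fintype.piFinset (fun _ : Fin l => V)).filter P,
        ((Fintype.piFinset (fun _ : Fin T => V)).filter (fun x => ∀ i, x (u i) = y i)).card := by
    rw [card_eq_sum_card_fiberwise (f := fun x : Fin T → α => fun i => x (u i))
      (t := (Fintype.piFinset (fun _ : Fin l => V)).filter P)]
    · refine Finset.sum_congr rfl fun y hy => ?_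
      congr 1
      ext x
      simp only [mem_filter, Fintype.mem_piFinset] at hy ⊢
      constructor
      · rintro ⟨⟨h1, _⟩, h2⟩
        exact ⟨h1, fun i => congrFun h2 i⟩
      · rintro ⟨h1, h2⟩
        have h3 : (fun i => x (u i)) = y := funext h2
        exact ⟨⟨h1, by rw [h3]; exact hy.2⟩, h3⟩
    · intro x hx
      simp only [coe_filter, Fintype.mem_piFinset, Set.mem_ofPred_eq] at hx ⊢
      exact ⟨fun i => hx.1 _, hx.2⟩
  rw [h1, Finset.sum_mul]
  rw [Finset.sum_congr rfl fun y hy => card_fiber V u hu y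
    (Fintype.mem_piFinset.1 (mem_filter.1 hy).1)]
  rw [sum_const, smul_eq_mul, Nat.mul_comm]

end Pool.Agent.W70.QP
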