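import Pool.Agent.H732R3.QuarterEv
import Pool.Agent.W70.QP.Main

/-!
Linear forms: at least `(4 ^ (-k) - ε) |V| ^ (k + 1)` of the `(k + 1)`-tuples of elements of a large
finite set `V` of linear forms are simultaneously prime, at least `x ^ (1 - η)` times up to `x`.
-/

namespace Pool.Agent.W70.QP

open Finset Filter Pool.Agent.H732R3.BigQ Pool.Agent.H361R2

/-- the number of `n ≤ x` at which all forms `(a, b) ∈ F` have prime values `a n + b` -/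
noncomputable def cntF (F : Finset (ℤ × ℤ)) (x : ℝ) : ℕ :=
  {n : ℕ | (∀ f ∈ F, 0 < f.1 * (n : ℤ) + f.2 ∧ Prime (f.1 * (n : ℤ) + f.2)) ∧ (n : ℝ) ≤ x}.ncard

/-- any `T` forms of `V` have no fixed prime divisor -/
def AdmV (T : ℕ) (V : Finset (ℤ × ℤ)) : Prop :=
  ∀ f : Fin T → ℤ × ℤ, (∀ i, f i ∈ V) → ∀ p : ℕ, p.Prime → ∃ n : ℤ, ∀ i,
    ¬ ((p : ℤ) ∣ (f i).1 * n + (f i).2)

theorem cntF_anti {F F' : Finset (ℤ × ℤ)} (h : F' ⊆ F) (x : ℝ) : cntF F x ≤ cntF F' x := by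
  unfold cntF
  apply Set.ncard_le_ncard
  · rintro n ⟨h1, h2⟩
    exact ⟨fun f hf => h1 f (h hf), h2⟩
  · apply (Set.finite_Iic ⌊x⌋₊).subset
    rintro n ⟨_, h⟩
    rw [Set.mem_Iic]
    exact Nat.le_floor h

theorem adm_box {T T' K' Q : ℕ} {V : Finset (ℤ × ℤ)} (hTV : AdmV T V) (hT : 1 ≤ T)
    (H : Fin T' → Fin K' → ℤ × ℤ) (hH : ∀ g i, H g i ∈ V)
    (hQ : ∀ p : ℕ, p.Prime → p ≤ T' * K' → p ∣ Q) (y : Fin T → ℤ × ℤ) (hy : ∀ j, y j ∈ V)
    (hres : ∀ g i, ∃ j, (((H g i).1 : ZMod Q), ((H g i).2 : ZMod Q)) =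
      (((y j).1 : ZMod Q), ((y j).2 : ZMod Q))) (p : ℕ) (hp : p.Prime) :
    ∃ n : ℤ, ∀ g i, ¬ ((p : ℤ) ∣ (H g i).1 * n + (H g i).2) := by
  rcases le_or_gt p (T' * K') with hpk | hpk
  · obtain ⟨n, hn⟩ := hTV y hy p hp
    refine ⟨n, fun g i hd => ?_⟩
    obtain ⟨j, hj⟩ := hres g i
    rw [Prod.mk.injEq] at hj
    obtain ⟨h1, h2⟩ := hj
    have hpQ : (p : ℤ) ∣ (Q : ℤ) := Int.natCast_dvd_natCast.2 (hQ p hp hpk)
    rw [ZMod.intCast_eq_intCast_iff] at h1 h2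
    have h3 := hpQ.trans h1.dvd
    have h4 := hpQ.trans h2.dvd
    apply hn j
    have h5 : (y j).1 * n + (y j).2 = ((H g i).1 * n + (H g i).2) +
        (((y j).1 - (H g i).1) * n + ((y j).2 - (H g i).2)) := by ring
    rw [h5]
    exact dvd_add hd (dvd_add (Dvd.dvd.mul_right h3 n) h4)
  · obtain ⟨n, hn⟩ := exists_avoid' (m := T' * K') hp hpk
      (fun x => (H (finProdFinEquiv.symm x).1 (finProdFinEquiv.symm x).2).1)
      (fun x => (H (finProdFinEquiv.symm x).1 (finProdFinEquiv.symm x).2).2) (by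
        rintro x ⟨h1, h2⟩
        obtain ⟨n, hn⟩ := hTV (fun _ => H (finProdFinEquiv.symm x).1 (finProdFinEquiv.symm x).2)
          (fun _ => hH _ _) p hp
        exact hn ⟨0, hT⟩ (dvd_add (Dvd.dvd.mul_right h1 _) h2))
    refine ⟨n, fun g i => ?_⟩
    have h1 := hn (finProdFinEquiv (g, i))
    simpa only [Equiv.symm_apply_apply] using h1

open Classical in
/-- the tuples of distinct elements of `V` with at least `x ^ (1 - η)` simultaneous prime values -/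
noncomputable def Phi (k : ℕ) (V : Finset (ℤ × ℤ)) (η x : ℝ) : Finset (Fin (k + 1) → ℤ × ℤ) :=
  (Fintype.piFinset (fun _ : Fin (k + 1) => V)).filter (fun f => Function.Injective f ∧
    x ^ (1 - η) ≤ (cntF (univ.image f) x : ℝ))

theorem forms_ev (k : ℕ) (ε : ℝ) (hε : 0 < ε) : ∃ T n₀ : ℕ, 1 ≤ T ∧ ∀ V : Finset (ℤ × ℤ),
    (∀ f ∈ V, 0 < f.1) → AdmV T V → n₀ ≤ V.card → ∀ η : ℝ, 0 < η → ∀ᶠ x : ℝ in atTop,
    ((1 / 4 : ℝ) ^ k - ε) * (V.card : ℝ) ^ (k + 1) ≤ ((Phi k V η x).card : ℝ) := by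
  classical
  have hq := quarterEv
  unfold QuarterEv at hq
  choose Kf hKf1 hKf using hq
  obtain ⟨T, M, hT, hM⟩ := main k ε hε Kf
  set Q : ℕ := (∑ T' ∈ range (M + 1), T' * Kf T').factorial with hQ
  have hQne : NeZero Q := ⟨(Nat.factorial_pos _).ne'⟩
  obtain ⟨n₀, hn₀⟩ := hM (ZMod Q × ZMod Q)
  refine ⟨T, n₀, hT, ?_⟩
  intro V hV0 hVadm hVn η hη
  have hev : ∀ᶠ x : ℝ in atTop, ∀ T' : Fin (M + 1), ∀ H : Fin (T' : ℕ) → Fin (Kf T') → V,
      Function.Injective (fun z : Fin (T' : ℕ) × Fin (Kf T') => (H z.1 z.2 : ℤ × ℤ)) →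
      (∀ p : ℕ, p.Prime → ∃ n : ℤ, ∀ g i, ¬ ((p : ℤ) ∣ (H g i : ℤ × ℤ).1 * n + (H g i : ℤ × ℤ).2)) →
      ∃ (S : Finset (Fin (T' : ℕ))) (c : Fin (T' : ℕ) → Fin (Kf T')), (T' : ℕ) ≤ 4 * S.card ∧
        x ^ (1 - η) ≤ (cntF (S.image (fun g => (H g (c g) : ℤ × ℤ))) x : ℝ) := by
    rw [eventually_all]
    intro T'
    rw [eventually_all]
    intro H
    by_cases h1 : Function.Injective (fun z : Fin (T' : ℕ) × Fin (Kf T') => (H z.1 z.2 : ℤ × ℤ))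
    swap
    · exact Eventually.of_forall fun x h => absurd h h1
    by_cases h2 : ∀ p : ℕ, p.Prime → ∃ n : ℤ, ∀ g i,
        ¬ ((p : ℤ) ∣ (H g i : ℤ × ℤ).1 * n + (H g i : ℤ × ℤ).2)
    swap
    · exact Eventually.of_forall fun x _ h => absurd h h2
    have h3 := hKf T' (fun g i => (H g i : ℤ × ℤ).1) (fun g i => (H g i : ℤ × ℤ).2)
      (fun g i => hV0 _ (H g i).2) (by
        intro z z' h
        apply h1
        simp only [Prod.mk.injEq] at h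
        exact Prod.ext h.1 h.2) h2 η hη
    filter_upwards [h3] with x hx _ _
    obtain ⟨S, c, hS, hc⟩ := hx
    refine ⟨S, c, hS, hc.trans (le_of_eq ?_)⟩
    unfold cntF
    congr 2
    ext n
    simp only [Set.mem_ofPred_eq, mem_image, forall_exists_index, and_imp,
      forall_apply_eq_imp_iff₂]
  filter_upwards [hev] with x hx
  have key := hn₀ (ℤ × ℤ) V (fun f => ((f.1 : ZMod Q), (f.2 : ZMod Q)))
    (fun F => x ^ (1 - η) ≤ (cntF F x : ℝ)) hVn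
    (fun F F' hF h => h.trans (by exact_mod_cast cntF_anti hF x)) (by
      intro T' hT'1 hT'M H hHV hHinj hy
      obtain ⟨y, hyV, hres⟩ := hy
      have hadm : ∀ p : ℕ, p.Prime → ∃ n : ℤ, ∀ g i, ¬ ((p : ℤ) ∣ (H g i).1 * n + (H g i).2) :=
        fun p hp => adm_box hVadm hT H hHV (fun p hp hpT => by
          rw [hQ]
          apply Nat.dvd_factorial hp.pos
          refine hpT.trans ?_
          exact Finset.single_le_sum (f := fun T' => T' * Kf T') (fun _ _ => Nat.zero_le _)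
            (mem_range.2 (by omega))) y hyV hres p hp
      obtain ⟨S, c, hS, hc⟩ := hx ⟨T', by omega⟩ (fun g i => ⟨H g i, hHV g i⟩) hHinj hadm
      exact ⟨S, c, hS, hc⟩)
  refine key.trans (le_of_eq ?_)
  unfold Phi
  congr!

/-- pigeonhole -/
theorem freq_pigeon {β : Type*} [Finite β] {φ : ℝ → β} {P : β → Prop}
    (h : ∀ᶠ x : ℝ in atTop, P (φ x)) : ∃ b, P b ∧ ∃ᶠ x : ℝ in atTop, φ x = b := by
  by_contra hcon
  push Not at hcon
  have h1 : ∀ b, ∀ᶠ x : ℝ in atTop, P b → φ x ≠ b := by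
    intro b
    by_cases hb : P b
    · have := hcon b hb
      filter_upwards [this] with x hx _ using hx
    · exact Eventually.of_forall fun x h => absurd h hb
  rw [← eventually_all] at h1
  obtain ⟨x, hx1, hx2⟩ := (h.and h1).exists
  exact hx2 (φ x) hx1 rfl

/-- one family of tuples for all exponents -/
theorem forms_family (k : ℕ) (ε : ℝ) (hε : 0 < ε) : ∃ T n₀ : ℕ, 1 ≤ T ∧ ∀ V : Finset (ℤ × ℤ),
    (∀ f ∈ V, 0 < f.1) → AdmV T V → n₀ ≤ V.card →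
    ∃ 𝒢 : Finset (Fin (k + 1) → ℤ × ℤ), (∀ f ∈ 𝒢, (∀ i, f i ∈ V) ∧ Function.Injective f) ∧
      ((1 / 4 : ℝ) ^ k - ε) * (V.card : ℝ) ^ (k + 1) ≤ (𝒢.card : ℝ) ∧
      ∀ η : ℝ, 0 < η → ∃ᶠ x : ℝ in atTop, ∀ f ∈ 𝒢, x ^ (1 - η) ≤ (cntF (univ.image f) x : ℝ) := by
  classical
  obtain ⟨T, n₀, hT, h⟩ := forms_ev k ε hε
  refine ⟨T, n₀, hT, fun V hV0 hVadm hVn => ?_⟩
  have hev := h V hV0 hVadm hVn
  set PS := (Fintype.piFinset (fun _ : Fin (k + 1) => V)).powerset with hPS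
  have hmem : ∀ η x, Phi k V η x ∈ PS := by
    intro η x
    rw [hPS, mem_powerset]
    unfold Phi
    exact filter_subset _ _
  have h1 : ∀ j : ℕ, ∃ b : PS, ((1 / 4 : ℝ) ^ k - ε) * (V.card : ℝ) ^ (k + 1) ≤ ((b : Finset (Fin (k + 1) → ℤ × ℤ)).card : ℝ) ∧
      ∃ᶠ x : ℝ in atTop, (⟨Phi k V (1 / (j + 1 : ℝ)) x, hmem _ x⟩ : PS) = b := by
    intro j
    exact freq_pigeon (φ := fun x => (⟨Phi k V (1 / (j + 1 : ℝ)) x, hmem _ x⟩ : PS))
      (P := fun b => ((1 / 4 : ℝ) ^ k - ε) * (V.card : ℝ) ^ (k + 1) ≤ ((b : Finset (Fin (k + 1) → ℤ × ℤ)).card : ℝ))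
      (hev (1 / (j + 1 : ℝ)) (by positivity))
  choose b hb1 hb2 using h1
  obtain ⟨B, hB⟩ := Finite.exists_infinite_fiber b
  have hBinf : (b ⁻¹' {B}).Infinite := Set.infinite_coe_iff.1 hB
  obtain ⟨j0, hj0⟩ := hBinf.nonempty
  have hj0' : b j0 = B := hj0
  refine ⟨B, fun f hf => ?_, by rw [← hj0']; exact hb1 j0, fun η hη => ?_⟩
  · obtain ⟨x, hx⟩ := (hb2 j0).exists
    rw [hj0'] at hx
    have h2 : f ∈ Phi k V (1 / (j0 + 1 : ℝ)) x := by
      have h5 := congrArg Subtype.val hx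
      change Phi k V _ x = _ at h5
      rw [h5]
      exact hf
    unfold Phi at h2
    rw [mem_filter, Fintype.mem_piFinset] at h2
    exact ⟨h2.1, h2.2.1⟩
  · obtain ⟨j, hj, hjη⟩ := hBinf.exists_gt ⌈1 / η⌉₊
    have hj' : b j = B := hj
    have hη' : 1 / (j + 1 : ℝ) ≤ η := by
      have h2 : 1 / η ≤ (j : ℝ) := (Nat.le_ceil _).trans (by exact_mod_cast hjη.le)
      have h3 : 1 / η ≤ (j : ℝ) + 1 := by linarith
      rw [div_le_iff₀ (by positivity)]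
      rw [div_le_iff₀ hη] at h3
      linarith
    refine ((hb2 j).and_eventually (eventually_ge_atTop (1 : ℝ))).mono ?_
    rintro x ⟨hx, hx1⟩ f hf
    rw [hj'] at hx
    have h2 : f ∈ Phi k V (1 / (j + 1 : ℝ)) x := by
      have h5 := congrArg Subtype.val hx
      change Phi k V _ x = _ at h5
      rw [h5]
      exact hf
    unfold Phi at h2
    rw [mem_filter] at h2
    exact le_trans (Real.rpow_le_rpow_of_exponent_le hx1 (by linarith)) h2.2.2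

end Pool.Agent.W70.QP
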