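import Pool.Agent.W70.QP.Arith

/-!
Shifts: the case of the forms `n + v`, `v ∈ V`.
-/

namespace Pool.Agent.W70.QP

open Finset Filter Pool.Agent.H732R3.BigQ Pool.Agent.H361R2

/-- the form `n + v` -/
def frm (v : ℕ) : ℤ × ℤ := (1, (v : ℤ))

theorem frm_inj : Function.Injective frm := by
  intro a b h
  have h1 := (Prod.mk.inj h).2
  exact_mod_cast h1

/-- the number of `n ≤ x` with all `n + a_i` prime -/
noncomputable def cntP {m : ℕ} (a : Fin m → ℕ) (x : ℝ) : ℕ :=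
  {n : ℕ | (n : ℝ) ≤ x ∧ ∀ i, (n + a i).Prime}.ncard

theorem cntF_frm {m : ℕ} (a : Fin m → ℕ) (x : ℝ) :
    cntF (univ.image (fun i => frm (a i))) x = cntP a x := by
  classical
  unfold cntF cntP
  congr 1
  ext n
  simp only [Set.mem_ofPred_eq, mem_image, mem_univ, true_and, forall_exists_index,
    forall_apply_eq_imp_iff]
  constructor
  · rintro ⟨h1, h2⟩
    refine ⟨h2, fun i => ?_⟩
    have h3 := (h1 i).2
    unfold frm at h3
    simp only [one_mul] at h3
    rw [Nat.prime_iff_prime_int]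
    exact_mod_cast h3
  · rintro ⟨h1, h2⟩
    refine ⟨fun i => ?_, h1⟩
    have h3 := h2 i
    unfold frm
    simp only [one_mul]
    refine ⟨by exact_mod_cast h3.pos, ?_⟩
    have h4 := Nat.prime_iff_prime_int.1 h3
    exact_mod_cast h4

theorem adm_frm {T : ℕ} {V : Finset ℕ}
    (hV : ∀ p : ℕ, p ≤ T → p.Prime → ∃ r : ℕ, ∀ v ∈ V, ¬ v ≡ r [MOD p]) :
    AdmV T (V.image frm) := by
  classical
  intro f hf p hp
  rcases le_or_gt p T with hpT | hpT
  · obtain ⟨r, hr⟩ := hV p hpT hp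
    refine ⟨-(r : ℤ), fun i hd => ?_⟩
    obtain ⟨v, hv, hvf⟩ := mem_image.1 (hf i)
    rw [← hvf] at hd
    unfold frm at hd
    simp only [one_mul] at hd
    apply hr v hv
    rw [Nat.modEq_iff_dvd]
    have h2 : (r : ℤ) - v = -(-(r : ℤ) + v) := by ring
    rw [h2]
    exact (dvd_neg.2 hd)
  · obtain ⟨n, hn⟩ := exists_avoid' (m := T) hp hpT (fun i => (f i).1) (fun i => (f i).2) (by
      rintro i ⟨h1, _⟩
      obtain ⟨v, _, hvf⟩ := mem_image.1 (hf i)
      rw [← hvf] at h1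
      unfold frm at h1
      have h2 : (p : ℤ) ∣ 1 := h1
      have h3 := Int.natCast_dvd_natCast.1 (by exact_mod_cast h2 : ((p : ℤ) ∣ ((1 : ℕ) : ℤ)))
      exact hp.one_lt.ne' (Nat.dvd_one.1 h3))
    exact ⟨n, hn⟩

open Classical in
/-- pull back a family of tuples of forms -/
noncomputable def back {k : ℕ} (V : Finset ℕ) (B : Finset (Fin (k + 1) → ℤ × ℤ)) :
    Finset (Fin (k + 1) → ℕ) :=
  (Fintype.piFinset (fun _ : Fin (k + 1) => V)).filter (fun a => (fun i => frm (a i)) ∈ B)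

theorem mem_back {k : ℕ} {V : Finset ℕ} {B : Finset (Fin (k + 1) → ℤ × ℤ)} {a : Fin (k + 1) → ℕ} :
    a ∈ back V B ↔ (∀ i, a i ∈ V) ∧ (fun i => frm (a i)) ∈ B := by
  classical
  unfold back
  rw [mem_filter, Fintype.mem_piFinset]

theorem card_back {k : ℕ} {V : Finset ℕ} {B : Finset (Fin (k + 1) → ℤ × ℤ)}
    (hB : ∀ f ∈ B, ∀ i, f i ∈ V.image frm) : B.card ≤ (back V B).card := by
  classical
  have h1 : B ⊆ (back V B).image (fun a i => frm (a i)) := by
    intro f hf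
    have h2 : ∀ i, ∃ v ∈ V, frm v = f i := fun i => mem_image.1 (hB f hf i)
    choose a ha hfa using h2
    rw [mem_image]
    have h3 : (fun i => frm (a i)) = f := funext hfa
    exact ⟨a, mem_back.2 ⟨ha, h3 ▸ hf⟩, h3⟩
  exact (card_le_card h1).trans card_image_le

theorem shifts (k : ℕ) (ε : ℝ) (hε : 0 < ε) : ∃ z n₀ : ℕ, ∀ V : Finset ℕ,
    (∀ p : ℕ, p ≤ z → p.Prime → ∃ r : ℕ, ∀ v ∈ V, ¬ v ≡ r [MOD p]) → n₀ ≤ V.card →
    (∃ 𝒢 : Finset (Fin (k + 1) → ℕ), (∀ a ∈ 𝒢, (∀ i, a i ∈ V) ∧ Function.Injective a) ∧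
      ((1 / 4 : ℝ) ^ k - ε) * (V.card : ℝ) ^ (k + 1) ≤ (𝒢.card : ℝ) ∧
      ∀ η : ℝ, 0 < η → ∃ᶠ x : ℝ in atTop, ∀ a ∈ 𝒢, x ^ (1 - η) ≤ (cntP a x : ℝ)) ∧
    (∀ η : ℝ, 0 < η → ∀ᶠ x : ℝ in atTop, ((1 / 4 : ℝ) ^ k - ε) * (V.card : ℝ) ^ (k + 1) ≤
      ({a : Fin (k + 1) → ℕ | (∀ i, a i ∈ V) ∧ Function.Injective a ∧
        x ^ (1 - η) ≤ (cntP a x : ℝ)}.ncard : ℝ)) := by
  classical
  obtain ⟨T₁, n₁, -, h₁⟩ := forms_ev k ε hε
  obtain ⟨T₂, n₂, -, h₂⟩ := forms_family k ε hε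
  refine ⟨max T₁ T₂, max n₁ n₂, fun V hV hn => ⟨?_, ?_⟩⟩
  · have hc : (V.image frm).card = V.card := card_image_of_injective _ frm_inj
    obtain ⟨B, hB1, hB2, hB3⟩ := h₂ (V.image frm) (by
      intro f hf
      obtain ⟨v, _, rfl⟩ := mem_image.1 hf
      exact one_pos) (adm_frm fun p hp => hV p (hp.trans (le_max_right _ _)))
      (by rw [hc]; exact (le_max_right _ _).trans hn)
    refine ⟨back V B, fun a ha => ?_, ?_, fun η hη => ?_⟩
    · rw [mem_back] at ha
      refine ⟨ha.1, fun i j hij => ?_⟩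
      exact (hB1 _ ha.2).2 (congrArg frm hij)
    · rw [hc] at hB2
      exact hB2.trans (by exact_mod_cast card_back fun f hf => (hB1 f hf).1)
    · refine (hB3 η hη).mono fun x hx a ha => ?_
      rw [mem_back] at ha
      have h3 := hx _ ha.2
      rwa [cntF_frm] at h3
  · intro η hη
    have hc : (V.image frm).card = V.card := card_image_of_injective _ frm_inj
    have h3 := h₁ (V.image frm) (by
      intro f hf
      obtain ⟨v, _, rfl⟩ := mem_image.1 hf
      exact one_pos) (adm_frm fun p hp => hV p (hp.trans (le_max_left _ _)))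
      (by rw [hc]; exact (le_max_left _ _).trans hn) η hη
    filter_upwards [h3] with x hx
    rw [hc] at hx
    refine hx.trans ?_
    have h4 : (Phi k (V.image frm) η x).card ≤ (back V (Phi k (V.image frm) η x)).card := by
      apply card_back
      intro f hf
      unfold Phi at hf
      rw [mem_filter, Fintype.mem_piFinset] at hf
      exact hf.1
    have h5 : (back V (Phi k (V.image frm) η x) : Set (Fin (k + 1) → ℕ)) ⊆
        {a : Fin (k + 1) → ℕ | (∀ i, a i ∈ V) ∧ Function.Injective a ∧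
        x ^ (1 - η) ≤ (cntP a x : ℝ)} := by
      intro a ha
      rw [Finset.mem_coe, mem_back] at ha
      obtain ⟨ha1, ha2⟩ := ha
      unfold Phi at ha2
      rw [mem_filter, cntF_frm] at ha2
      exact ⟨ha1, fun i j hij => ha2.2.1 (congrArg frm hij), ha2.2.2⟩
    have h6 : {a : Fin (k + 1) → ℕ | (∀ i, a i ∈ V) ∧ Function.Injective a ∧
        x ^ (1 - η) ≤ (cntP a x : ℝ)}.Finite := by
      apply (Fintype.piFinset (fun _ : Fin (k + 1) => V)).finite_toSet.subset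
      rintro a ⟨ha, _⟩
      rw [Finset.mem_coe, Fintype.mem_piFinset]
      exact ha
    have h7 := Set.ncard_le_ncard h5 h6
    rw [Set.ncard_coe_finset] at h7
    exact_mod_cast h4.trans h7

end Pool.Agent.W70.QP
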